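import Mathlib

/-!
# A formula with the fractional Helly property whose type counting function is not
polynomially bounded

Vertices are triples `(i, j, c)` with `i j : ℕ` and a colour `c : Bool`; `(i, j, c)` and
`(i', j', c')` are adjacent when `i = i'`, `j ≠ j'` and `c ≠ c'` (a disjoint union of infinitely
many infinite crown graphs, a bipartite graph).  The structure consists of pairs `(s, u)` of a
finite independent set `s` and a vertex `u`, and the relation says that the vertex of the second
argument lies in the independent set of the first one.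
-/

universe u v w

namespace Pool.Agent.Results.MP_f4a2a6_lc.FHPNotPolyBounded

open FirstOrder FirstOrder.Language

/-! ## The definitions of the problem -/

section Defs

variable {L : FirstOrder.Language.{v, w}} (M : Type u) [L.Structure M] {α β : Type}

/-- The set `φ(M, b)` defined by the instance of the partitioned formula `φ(x, y)` at `b`. -/
def inst (φ : L.Formula (α ⊕ β)) (b : β → M) : Set (α → M) :=
  {a | φ.Realize (Sum.elim a b)}

/-- `FHP(k, a, b)` for a family `F` of sets: for every `n` and all `S_1, ..., S_n` in `F`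
(repetitions allowed), if at least `a * (n choose k)` of the `k`-element subsets `J` of the
index set have `⋂_{i ∈ J} S_i` nonempty, then some index set `J` with `|J| ≥ b * n` has
`⋂_{i ∈ J} S_i` nonempty. -/
def FHPFamily {X : Type u} (F : Set (Set X)) (k : ℕ) (a b : ℝ) : Prop :=
  ∀ (n : ℕ) (S : Fin n → Set X), (∀ i, S i ∈ F) →
    a * (n.choose k : ℝ) ≤
      (Set.ncard {J : Finset (Fin n) | J.card = k ∧ (⋂ i ∈ J, S i).Nonempty} : ℝ) →
    ∃ J : Finset (Fin n), b * (n : ℝ) ≤ (J.card : ℝ) ∧ (⋂ i ∈ J, S i).Nonempty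

/-- The partitioned formula `φ` has the fractional Helly property in `M`: there is `k ≥ 1` such
that for every `a > 0` there is `b > 0` for which the family of all `φ(M, c)` satisfies
`FHP(k, a, b)`. -/
def HasFHP (φ : L.Formula (α ⊕ β)) : Prop :=
  ∃ k : ℕ, 1 ≤ k ∧ ∀ a : ℝ, 0 < a → ∃ b : ℝ, 0 < b ∧
    FHPFamily (Set.range (inst M φ)) k a b

/-- The type `{φ(x, a) : a ∈ p}` given by a finite set `p` of parameters is consistent. -/
def Consistent (φ : L.Formula (α ⊕ β)) (p : Finset (β → M)) : Prop :=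
  (⋂ a ∈ p, inst M φ a).Nonempty

/-- Two such types are 1-inconsistent: some `φ(x, a)` in the first and some `φ(x, b)` in the
second have `φ(x, a) ∧ φ(x, b)` inconsistent. -/
def OneInconsistent (φ : L.Formula (α ⊕ β)) (p q : Finset (β → M)) : Prop :=
  ∃ a ∈ p, ∃ b ∈ q, ¬ (inst M φ a ∩ inst M φ b).Nonempty

/-- The counting function `f_φ(k, l)`: the maximal size of a set `S` of pairwise
1-inconsistent consistent types `{φ(x, a) : a ∈ p}` with `p` a `k`-element subset of `A`, where
`A` is a set of `l` parameters.  (The set of sizes is bounded by `2 ^ l`, so `sSup` is a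
maximum.) -/
noncomputable def f (φ : L.Formula (α ⊕ β)) (k l : ℕ) : ℕ :=
  sSup {m : ℕ | ∃ (A : Finset (β → M)) (S : Finset (Finset (β → M))), A.card = l ∧ S.card = m ∧
    (∀ p ∈ S, p ⊆ A ∧ p.card = k ∧ Consistent M φ p) ∧
    (∀ p ∈ S, ∀ q ∈ S, p ≠ q → OneInconsistent M φ p q)}

/-- `f_φ` is polynomially bounded: there is `d` such that for each `k ≥ 1` there is `C` with
`f_φ(k, l) ≤ C * l ^ d` for all `l ≥ k`. -/
def PolyBounded (φ : L.Formula (α ⊕ β)) : Prop :=
  ∃ d : ℕ, ∀ k : ℕ, 1 ≤ k → ∃ C : ℝ, ∀ l : ℕ, k ≤ l → (f M φ k l : ℝ) ≤ C * (l : ℝ) ^ d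

end Defs

/-! ## The structure -/

/-- The relation symbols of the language: one binary symbol. -/
inductive RelSym : ℕ → Type
  | mem : RelSym 2

/-- The language with one binary relation symbol. -/
def Lm : FirstOrder.Language.{0, 0} := ⟨fun _ => Empty, RelSym⟩

/-- The vertices. -/
abbrev Vx : Type := ℕ × ℕ × Bool

/-- Adjacency. -/
def adj (a b : Vx) : Prop := a.1 = b.1 ∧ a.2.1 ≠ b.2.1 ∧ a.2.2 ≠ b.2.2

/-- Pairs of a finite independent set and a vertex. -/
abbrev Pt : Type := {s : Finset Vx // ∀ a ∈ s, ∀ b ∈ s, ¬ adj a b} × Vx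

instance : Lm.Structure Pt where
  funMap := fun f _ => Empty.elim f
  RelMap := fun {_} r => match r with
    | RelSym.mem => fun v => (v 1).2 ∈ (v 0).1.1

/-- Two place relation in any `Lm`-structure. -/
def R {M : Type u} [Lm.Structure M] (x y : M) : Prop :=
  Structure.RelMap (L := Lm) RelSym.mem ![x, y]

theorem R_Pt (x y : Pt) : R x y ↔ y.2 ∈ x.1.1 := Iff.rfl

/-- The symbol. -/
def memSym : Lm.Relations 2 := RelSym.mem

/-- The formula `φ(x, y)`. -/
def phi : Lm.Formula (Fin 1 ⊕ Fin 1) :=
  memSym.formula₂ (Term.var (Sum.inl 0)) (Term.var (Sum.inr 0))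

theorem mem_inst {M : Type u} [Lm.Structure M] (a b : Fin 1 → M) :
    a ∈ inst M phi b ↔ R (a 0) (b 0) := by
  simp only [inst, phi, Set.mem_ofPred_eq, Formula.realize_rel₂]
  rfl

/-- Common point. -/
def Comm {M : Type u} [Lm.Structure M] {V : Type} (v : V → M) (s : Set V) : Prop :=
  ∃ x, ∀ i ∈ s, R x (v i)

/-- The formula saying that the `y_i`, `i ∈ s` have a common point. -/
noncomputable def cf {V : Type} [Finite V] (s : Set V) : Lm.Formula V :=
  Formula.iExs (Fin 1) (Formula.iInf (fun i : s =>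
    memSym.formula₂ (Term.var (Sum.inr (0 : Fin 1))) (Term.var (Sum.inl (i : V)))))

theorem realize_cf {M : Type u} [Lm.Structure M] {V : Type} [Finite V] (s : Set V) (v : V → M) :
    (cf s).Realize v ↔ Comm v s := by
  simp only [cf, Formula.realize_iExs, Formula.realize_iInf, Formula.realize_rel₂, Comm]
  constructor
  · rintro ⟨x, hx⟩
    refine ⟨x 0, fun i hi => ?_⟩
    have := hx ⟨i, hi⟩
    simpa [R, memSym] using this
  · rintro ⟨x, hx⟩
    refine ⟨fun _ => x, fun i => ?_⟩
    have := hx i i.2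
    simpa [R, memSym] using this

instance : Nonempty Pt := ⟨(⟨∅, by simp⟩, (0, 0, true))⟩

/-- The complete theory of the structure. -/
def T : Lm.Theory := Lm.completeTheory Pt

theorem model_iff {M : Type u} [Lm.Structure M] [M ⊨ T] (σ : Lm.Sentence) :
    M ⊨ σ ↔ Pt ⊨ σ := by
  have h1 : (Lm.completeTheory Pt).IsComplete := completeTheory.isComplete Lm Pt
  constructor
  · intro h
    by_contra hc
    have : Formula.not σ ∈ T := by
      simpa [T, Sentence.realize_not] using hc
    have h2 := Theory.realize_sentence_of_mem (M := M) T this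
    rw [Sentence.realize_not] at h2
    exact h2 h
  · intro h
    have : σ ∈ T := by simpa [T] using h
    exact Theory.realize_sentence_of_mem (M := M) T this

/-- The sentence: for all `y_1, ..., y_n` some at least half of them have a common point. -/
noncomputable def half (n : ℕ) : Lm.Sentence :=
  Formula.iAlls (Fin n) ((Formula.iSup (fun J : {J : Finset (Fin n) // n ≤ 2 * J.card} =>
    cf (J.1 : Set (Fin n)))).relabel Sum.inr : Lm.Formula (Empty ⊕ Fin n))

theorem realize_half {M : Type u} [Lm.Structure M] (n : ℕ) :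
    M ⊨ half n ↔ ∀ v : Fin n → M, ∃ J : Finset (Fin n), n ≤ 2 * J.card ∧ Comm v (J : Set (Fin n)) := by
  simp only [half, Sentence.Realize, Formula.realize_iAlls, Formula.realize_relabel,
    Formula.realize_iSup, Subtype.exists]
  refine forall_congr' fun v => ?_
  refine exists_congr fun J => ?_
  rw [exists_prop]
  refine and_congr_right fun _ => ?_
  rw [realize_cf]
  rfl

theorem half_Pt (n : ℕ) : Pt ⊨ half n := by
  rw [realize_half]
  intro v
  classical
  set A : Bool → Finset (Fin n) := fun c => Finset.univ.filter (fun i => (v i).2.2.2 = c) with hA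
  have key : ∀ c, Comm v (A c : Set (Fin n)) := by
    intro c
    refine ⟨(⟨(A c).image (fun i => (v i).2), ?_⟩, (0, 0, true)), ?_⟩
    · intro a ha b hb hab
      simp only [hA, Finset.mem_image, Finset.mem_filter, Finset.mem_univ, true_and] at ha hb
      obtain ⟨i, hi, rfl⟩ := ha
      obtain ⟨j, hj, rfl⟩ := hb
      exact hab.2.2 (hi.trans hj.symm)
    · intro i hi
      rw [R_Pt]
      exact Finset.mem_image_of_mem _ (by exact_mod_cast hi)
  have hcard : (A true).card + (A false).card = n := by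
    have h1 := Finset.card_filter_add_card_filter_not (s := (Finset.univ : Finset (Fin n)))
      (fun i => (v i).2.2.2 = true)
    simp only [hA]
    simpa using h1
  by_cases h : n ≤ 2 * (A true).card
  · exact ⟨A true, h, key _⟩
  · exact ⟨A false, by omega, key _⟩

/-- The array sentence. -/
noncomputable def arr (k l : ℕ) : Lm.Sentence :=
  Formula.iExs (Fin k × Fin l × Bool) (((
    Formula.iInf (fun η : Fin k → Fin l =>
      cf {p : Fin k × Fin l × Bool | p.2.1 = η p.1}) ⊓
    Formula.iInf (fun q : {q : Fin k × Fin l × Fin l // q.2.1 ≠ q.2.2} =>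
      (cf ({(q.1.1, q.1.2.1, true), (q.1.1, q.1.2.2, false)} :
        Set (Fin k × Fin l × Bool))).not)) ⊓
    Formula.iInf (fun q : {q : (Fin k × Fin l × Bool) × (Fin k × Fin l × Bool) // q.1 ≠ q.2} =>
      (Term.equal (Term.var q.1.1) (Term.var q.1.2)).not)).relabel Sum.inr :
        Lm.Formula (Empty ⊕ (Fin k × Fin l × Bool)))

theorem realize_arr {M : Type u} [Lm.Structure M] (k l : ℕ) :
    M ⊨ arr k l ↔ ∃ v : Fin k × Fin l × Bool → M,
      ((∀ η : Fin k → Fin l, Comm v {p | p.2.1 = η p.1}) ∧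
      (∀ i j j', j ≠ j' → ¬ Comm v {(i, j, true), (i, j', false)})) ∧
      Function.Injective v := by
  simp only [arr, Sentence.Realize, Formula.realize_iExs, Formula.realize_relabel,
    Formula.realize_iInf, Formula.realize_inf, Formula.realize_not, Formula.realize_equal]
  refine exists_congr fun v => ?_
  refine and_congr (and_congr ?_ ?_) ?_
  · refine forall_congr' fun η => ?_
    rw [realize_cf]
    rfl
  · constructor
    · intro h i j j' hj
      have := h ⟨(i, j, j'), hj⟩
      rw [realize_cf] at this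
      exact this
    · rintro h ⟨⟨i, j, j'⟩, hj⟩
      rw [realize_cf]
      exact h i j j' hj
  · constructor
    · intro h p q hpq
      by_contra hne
      exact h ⟨(p, q), hne⟩ (by simpa using hpq)
    · rintro h ⟨⟨p, q⟩, hne⟩ hpq
      exact hne (h (by simpa using hpq))

theorem arr_Pt (k l : ℕ) : Pt ⊨ arr k l := by
  rw [realize_arr]
  classical
  refine ⟨fun p => (⟨∅, by simp⟩, (p.1.1, p.2.1.1, p.2.2)), ⟨?_, ?_⟩, ?_⟩
  · intro η
    refine ⟨(⟨(Finset.univ : Finset (Fin k × Bool)).image
      (fun q => ((q.1 : ℕ), ((η q.1 : Fin l) : ℕ), q.2)), ?_⟩, (0, 0, true)), ?_⟩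
    · intro a ha b hb hab
      simp only [Finset.mem_image, Finset.mem_univ, true_and] at ha hb
      obtain ⟨⟨i, c⟩, rfl⟩ := ha
      obtain ⟨⟨i', c'⟩, rfl⟩ := hb
      obtain ⟨h1, h2, h3⟩ := hab
      simp only at h1 h2
      have : i = i' := Fin.ext h1
      subst this
      exact h2 rfl
    · rintro ⟨i, j, c⟩ hp
      rw [R_Pt]
      simp only [Set.mem_ofPred_eq] at hp
      subst hp
      exact Finset.mem_image.2 ⟨(i, c), Finset.mem_univ _, rfl⟩
  · rintro i j j' hj ⟨x, hx⟩
    have h1 := hx (i, j, true) (by simp)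
    have h2 := hx (i, j', false) (by simp)
    rw [R_Pt] at h1 h2
    refine x.1.2 _ h1 _ h2 ⟨rfl, ?_, by simp⟩
    simpa [Fin.ext_iff] using hj
  · rintro ⟨i, j, c⟩ ⟨i', j', c'⟩ h
    simp only [Prod.mk.injEq, true_and] at h
    obtain ⟨h1, h2, h3⟩ := h
    simp [Fin.ext_iff, h1, h2, h3]

theorem hasFHP {M : Type u} [Lm.Structure M] [M ⊨ T] : HasFHP M phi := by
  refine ⟨1, le_rfl, fun a _ => ⟨1 / 2, by norm_num, ?_⟩⟩
  intro n S hS _
  choose b hb using hS
  have h := (realize_half (M := M) n).1 ((model_iff _).2 (half_Pt n)) (fun i => b i 0)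
  obtain ⟨J, hJ, x, hx⟩ := h
  refine ⟨J, ?_, (fun _ => x), ?_⟩
  · have : (n : ℝ) ≤ 2 * (J.card : ℝ) := by exact_mod_cast hJ
    linarith
  · simp only [Set.mem_iInter]
    intro i hi
    rw [← hb i, mem_inst]
    exact hx i (by exact_mod_cast hi)

theorem le_f {M : Type u} [Lm.Structure M] [M ⊨ T] (k l : ℕ) (hl : 2 ≤ l) :
    l ^ k ≤ f M phi (2 * k) (2 * k * l) := by
  classical
  obtain ⟨v, ⟨h1, h2⟩, hinj⟩ := (realize_arr (M := M) k l).1 ((model_iff _).2 (arr_Pt k l))
  set c : M → (Fin 1 → M) := fun x _ => x with hc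
  have hcinj : Function.Injective c := fun x y h => congrFun h 0
  set A : Finset (Fin 1 → M) := Finset.univ.image (fun p => c (v p)) with hA
  set P : (Fin k → Fin l) → Finset (Fin 1 → M) := fun η =>
    (Finset.univ : Finset (Fin k × Bool)).image (fun q => c (v (q.1, η q.1, q.2))) with hP
  have hcons : ∀ η, Consistent M phi (P η) := by
    intro η
    obtain ⟨x, hx⟩ := h1 η
    refine ⟨c x, ?_⟩
    simp only [Set.mem_iInter]
    intro a ha
    obtain ⟨q, -, rfl⟩ := Finset.mem_image.1 ha
    rw [mem_inst]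
    exact hx _ rfl
  have hinc : ∀ η η', η ≠ η' → OneInconsistent M phi (P η) (P η') := by
    intro η η' hne
    obtain ⟨i, hi⟩ := Function.ne_iff.1 hne
    refine ⟨c (v (i, η i, true)), Finset.mem_image.2 ⟨(i, true), Finset.mem_univ _, rfl⟩,
      c (v (i, η' i, false)), Finset.mem_image.2 ⟨(i, false), Finset.mem_univ _, rfl⟩, ?_⟩
    rintro ⟨x, hx1, hx2⟩
    rw [mem_inst] at hx1 hx2
    refine h2 i _ _ hi ⟨x 0, ?_⟩
    intro p hp
    rcases hp with rfl | rfl
    · exact hx1
    · exact hx2
  have hPinj : Function.Injective P := by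
    intro η η' h
    by_contra hne
    obtain ⟨a, ha, b, hb, hab⟩ := hinc η η' hne
    rw [← h] at hb
    apply hab
    obtain ⟨x, hx⟩ := hcons η
    simp only [Set.mem_iInter] at hx
    exact ⟨x, hx a ha, hx b hb⟩
  refine le_csSup ?_ ?_
  · refine ⟨2 ^ (2 * k * l), ?_⟩
    rintro m ⟨A', S', hA', hS', h3, -⟩
    rw [← hS', ← hA', ← Finset.card_powerset]
    refine Finset.card_le_card fun p hp => ?_
    rw [Finset.mem_powerset]
    exact (h3 p hp).1
  · refine ⟨A, Finset.univ.image P, ?_, ?_, ?_, ?_⟩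
    · rw [hA, Finset.card_image_of_injective _
        (f := fun p => c (v p)) (fun x y h => hinj (hcinj h))]
      simp only [Finset.card_univ, Fintype.card_prod, Fintype.card_fin, Fintype.card_bool]
      ring
    · rw [Finset.card_image_of_injective _ hPinj]
      simp
    · intro p hp
      obtain ⟨η, -, rfl⟩ := Finset.mem_image.1 hp
      refine ⟨?_, ?_, hcons η⟩
      · intro a ha
        obtain ⟨q, -, rfl⟩ := Finset.mem_image.1 ha
        exact Finset.mem_image.2 ⟨_, Finset.mem_univ _, rfl⟩
      · rw [hP]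
        simp only
        rw [Finset.card_image_of_injective]
        · simp only [Finset.card_univ, Fintype.card_prod, Fintype.card_fin, Fintype.card_bool]
          ring
        · rintro ⟨i, a⟩ ⟨i', a'⟩ h
          have := hinj (hcinj h)
          simp only [Prod.mk.injEq] at this
          simp [this.1, this.2.2]
    · intro p hp q hq hne
      obtain ⟨η, -, rfl⟩ := Finset.mem_image.1 hp
      obtain ⟨η', -, rfl⟩ := Finset.mem_image.1 hq
      exact hinc η η' (fun h => hne (by rw [h]))

theorem not_polyBounded {M : Type u} [Lm.Structure M] [M ⊨ T] : ¬ PolyBounded M phi := by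
  rintro ⟨d, hd⟩
  obtain ⟨C, hC⟩ := hd (2 * (d + 1)) (by omega)
  obtain ⟨l, hl⟩ := exists_nat_gt (max 2 (C * (2 * (d + 1) : ℝ) ^ d))
  have hl2 : (2 : ℝ) < l := lt_of_le_of_lt (le_max_left _ _) hl
  have hl2' : 2 < l := by exact_mod_cast hl2
  have hlC : C * (2 * (d + 1) : ℝ) ^ d < l := lt_of_le_of_lt (le_max_right _ _) hl
  have h1 := hC (2 * (d + 1) * l) (Nat.le_mul_of_pos_right _ (by omega))
  have h2 : ((l ^ (d + 1) : ℕ) : ℝ) ≤ f M phi (2 * (d + 1)) (2 * (d + 1) * l) := by
    exact_mod_cast le_f (d + 1) l hl2'.le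
  have h3 := h2.trans h1
  have h4 : (0 : ℝ) < (l : ℝ) ^ d := by positivity
  have h5 : C * (((2 * (d + 1) * l : ℕ) : ℝ)) ^ d = (C * (2 * (d + 1) : ℝ) ^ d) * (l : ℝ) ^ d := by
    push_cast
    rw [mul_pow]
    ring
  rw [h5] at h3
  have h6 : (C * (2 * (d + 1) : ℝ) ^ d) * (l : ℝ) ^ d < l * (l : ℝ) ^ d :=
    mul_lt_mul_of_pos_right hlC h4
  have h7 : ((l ^ (d + 1) : ℕ) : ℝ) = l * (l : ℝ) ^ d := by
    push_cast
    ring
  rw [h7] at h3
  linarith

instance : Infinite Pt := by
  refine Infinite.of_injective (fun n : ℕ => ((⟨∅, by simp⟩, (n, 0, true)) : Pt)) ?_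
  intro a b h
  simpa using h

/-- There are a complete theory `T` with infinite models and a partitioned formula `φ(x, y)`
such that in every model `M` of `T` (in particular in its monster model) `φ` has the fractional
Helly property and `f_φ` is not polynomially bounded. -/
theorem result :
    ∃ (L : FirstOrder.Language.{0, 0}) (T : L.Theory) (φ : L.Formula (Fin 1 ⊕ Fin 1)),
      T.IsComplete ∧ ∀ (M : Type u) [L.Structure M] [M ⊨ T] [Nonempty M],
        Infinite M ∧ HasFHP M φ ∧ ¬ PolyBounded M φ := by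
  refine ⟨Lm, T, phi, completeTheory.isComplete Lm Pt, ?_⟩
  intro M _ _ _
  refine ⟨?_, hasFHP, not_polyBounded⟩
  have : Pt ≅[Lm] M := by
    rw [elementarilyEquivalent_iff]
    intro σ
    exact (model_iff σ).symm
  exact (ElementarilyEquivalent.infinite_iff this).1 inferInstance

end Pool.Agent.Results.MP_f4a2a6_lc.FHPNotPolyBounded
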